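import Pool.Agent.Lib.MP_17d4d1_pr.C.Iface

set_option autoImplicit false

/-!
# Module COUPLE (helper40): quantile coupling of finitely many laws on `Fin n`
-/

namespace Pool.Agent.Lib.MP_17d4d1_pr.C.H40

open Finset Pool.Agent.Lib.MP_17d4d1_pr Pool.Agent.Lib.MP_17d4d1_pr.S
  Pool.Agent.Lib.MP_17d4d1_pr.C

/-- The largest element of `R` below `x`, or `0`. -/
noncomputable def pr (R : Finset ℝ) (x : ℝ) : ℝ :=
  (insert 0 (R.filter (· < x))).max' (insert_nonempty _ _)

theorem pr_mem (R : Finset ℝ) (x : ℝ) : pr R x ∈ insert 0 (R.filter (· < x)) := max'_mem _ _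

theorem le_pr {R : Finset ℝ} {x y : ℝ} (hy : y ∈ R) (h : y < x) : y ≤ pr R x :=
  le_max' _ _ (mem_insert_of_mem (mem_filter.2 ⟨hy, h⟩))

theorem pr_lt {R : Finset ℝ} {x : ℝ} (hx : 0 < x) : pr R x < x := by
  rcases mem_insert.1 (pr_mem R x) with h | h
  · rw [h]; exact hx
  · exact (mem_filter.1 h).2

theorem tele {R : Finset ℝ} (hR : ∀ x ∈ R, 0 < x) {c : ℝ} (hc : c ∈ insert 0 R) :
    ∑ x ∈ R.filter (· ≤ c), (x - pr R x) = c := by
  induction h : (R.filter (· < c)).card using Nat.strong_induction_on generalizing c with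
  | _ k ih =>
    have zero : ∑ x ∈ R.filter (· ≤ (0 : ℝ)), (x - pr R x) = 0 := by
      rw [filter_false_of_mem (fun x hx => not_le.2 (hR x hx)), sum_empty]
    rcases mem_insert.1 hc with h0 | h1
    · rw [h0]; exact zero
    · have hlt : pr R c < c := pr_lt (hR c h1)
      have hset : R.filter (· ≤ c) = insert c (R.filter (· ≤ pr R c)) := by
        ext x
        simp only [mem_filter, mem_insert]
        constructor
        · rintro ⟨hx, hxc⟩
          rcases eq_or_lt_of_le hxc with e | l
          · exact Or.inl e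
          · exact Or.inr ⟨hx, le_pr hx l⟩
        · rintro (e | ⟨hx, hxc⟩)
          · exact ⟨e ▸ h1, e.le⟩
          · exact ⟨hx, hxc.trans hlt.le⟩
      have hnot : c ∉ R.filter (· ≤ pr R c) := by
        intro hm
        exact absurd (mem_filter.1 hm).2 (not_le.2 hlt)
      have hrec : ∑ x ∈ R.filter (· ≤ pr R c), (x - pr R x) = pr R c := by
        rcases mem_insert.1 (pr_mem R c) with e | e
        · rw [e]; exact zero
        · have e1 := (mem_filter.1 e).1
          refine ih (R.filter (· < pr R c)).card ?_ (mem_insert_of_mem e1) rfl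
          rw [← h]
          refine card_lt_card ⟨fun x hx => ?_, fun hsub => ?_⟩
          · exact mem_filter.2 ⟨(mem_filter.1 hx).1, (mem_filter.1 hx).2.trans hlt⟩
          · exact absurd (mem_filter.1 (hsub e)).2 (lt_irrefl _)
      rw [hset, sum_insert hnot, hrec]
      ring

/-- A function on `Fin n` all of whose initial sums vanish is zero. -/
theorem eq_of_initial {n : ℕ} {p q : Fin n → ℝ}
    (h : ∀ c, ∑ i ∈ univ.filter (· ≤ c), p i = ∑ i ∈ univ.filter (· ≤ c), q i) (c : Fin n) :
    p c = q c := by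
  induction c using WellFoundedLT.induction with
  | _ c ih =>
    have hset : (univ.filter (· ≤ c) : Finset (Fin n)) = insert c (univ.filter (· < c)) := by
      ext i
      simp only [mem_filter, mem_univ, true_and, mem_insert]
      exact le_iff_eq_or_lt
    have h1 := h c
    have hnot : c ∉ (univ.filter (· < c) : Finset (Fin n)) := by simp
    rw [hset, sum_insert hnot, sum_insert hnot,
      sum_congr rfl (fun i hi => ih i (mem_filter.1 hi).2)] at h1
    linarith

theorem couple : COUPLE_S := by
  classical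
  intro T _ _ n p h0 h1 hm
  rcases isEmpty_or_nonempty T with hT | hT
  · exact ⟨Unit, inferInstance, inferInstance, fun _ => 1, fun t => hT.elim t, by simp, by simp,
      fun s => hT.elim s, fun t => hT.elim t⟩
  set F : T → Fin n → ℝ := fun t c => ∑ i ∈ univ.filter (· ≤ c), p t i with hF
  have hF0 : ∀ t c, 0 ≤ F t c := fun t c => sum_nonneg fun i _ => h0 t i
  have hF1 : ∀ t c, F t c ≤ 1 := by
    intro t c
    rw [← h1 t]
    exact sum_le_sum_of_subset_of_nonneg (subset_univ _) fun i _ _ => h0 t i
  have hFm : ∀ t c d, c ≤ d → F t c ≤ F t d := by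
    intro t c d hcd
    refine sum_le_sum_of_subset_of_nonneg (fun i hi => ?_) fun i _ _ => h0 t i
    exact mem_filter.2 ⟨mem_univ _, (mem_filter.1 hi).2.trans hcd⟩
  have hn : 0 < n := by
    rcases Nat.eq_zero_or_pos n with e | e
    · subst e
      obtain ⟨t⟩ := hT
      have := h1 t
      simp at this
    · exact e
  have hlast : ∀ t, ∃ c, F t c = 1 := by
    intro t
    refine ⟨⟨n - 1, by omega⟩, ?_⟩
    rw [← h1 t]
    have : (univ.filter (· ≤ (⟨n - 1, by omega⟩ : Fin n)) : Finset (Fin n)) = univ := by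
      ext i
      simp only [mem_filter, mem_univ, true_and, iff_true]
      rw [Fin.le_def]
      have := i.2
      simp only
      omega
    simp only [hF, this]
  -- the breakpoints
  set R : Finset ℝ := (insert 1 (univ.image fun z : T × Fin n => F z.1 z.2)).filter (0 < ·) with hR
  have hRpos : ∀ x ∈ R, 0 < x := fun x hx => (mem_filter.1 hx).2
  have hR1 : ∀ x ∈ R, x ≤ 1 := by
    intro x hx
    rcases mem_insert.1 (mem_filter.1 hx).1 with e | e
    · exact e.le
    · obtain ⟨z, -, hz⟩ := mem_image.1 e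
      rw [← hz]; exact hF1 _ _
  have h1R : (1 : ℝ) ∈ R := mem_filter.2 ⟨mem_insert_self _ _, one_pos⟩
  have hFR : ∀ t c, F t c ∈ insert 0 R := by
    intro t c
    rcases eq_or_lt_of_le (hF0 t c) with e | l
    · rw [← e]; exact mem_insert_self _ _
    · exact mem_insert_of_mem (mem_filter.2
        ⟨mem_insert_of_mem (mem_image.2 ⟨(t, c), mem_univ _, rfl⟩), l⟩)
  have hne : ∀ (t : T) (x : R), (univ.filter fun c => (x : ℝ) ≤ F t c).Nonempty := by
    intro t x
    obtain ⟨c, hc⟩ := hlast t
    exact ⟨c, mem_filter.2 ⟨mem_univ _, by rw [hc]; exact hR1 x x.2⟩⟩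
  set φ : T → R → Fin n := fun t x => (univ.filter fun c => (x : ℝ) ≤ F t c).min' (hne t x) with hφ
  have hφF : ∀ (t : T) (x : R), (x : ℝ) ≤ F t (φ t x) :=
    fun t x => (mem_filter.1 (min'_mem _ (hne t x))).2
  have hφle : ∀ (t : T) (x : R) (c : Fin n), φ t x ≤ c ↔ (x : ℝ) ≤ F t c := by
    intro t x c
    constructor
    · exact fun h => (hφF t x).trans (hFm t _ _ h)
    · intro h
      have hmem : c ∈ univ.filter fun c => (x : ℝ) ≤ F t c := mem_filter.2 ⟨mem_univ _, h⟩
      exact min'_le _ _ hmem
  refine ⟨R, inferInstance, inferInstance, fun x => (x : ℝ) - pr R x, φ, ?_, ?_, ?_, ?_⟩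
  · intro x
    have := pr_lt (R := R) (hRpos x x.2)
    linarith
  · rw [sum_coe_sort R (fun x => x - pr R x)]
    have h2 := tele hRpos (mem_insert_of_mem h1R)
    rwa [filter_true_of_mem hR1] at h2
  · intro s t x y hst hxy
    rw [hφle]
    have hxy' : (x : ℝ) ≤ y := hxy
    exact hxy'.trans ((hφF t y).trans (hm s t hst _))
  · intro t u
    have key : ∀ c, ∑ x ∈ univ.filter (fun x : R => φ t x ≤ c), ((x : ℝ) - pr R x) = F t c := by
      intro c
      rw [← tele hRpos (hFR t c), sum_filter, sum_filter,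
        ← sum_coe_sort R (fun x => if x ≤ F t c then x - pr R x else 0)]
      refine sum_congr rfl fun x _ => ?_
      simp only [hφle]
    have hlaw : ∀ c, p t c = ∑ x ∈ univ.filter (fun x : R => φ t x = c), ((x : ℝ) - pr R x) := by
      refine eq_of_initial fun c => ?_
      have h2 := key c
      rw [← sum_fiberwise_of_maps_to (s := univ.filter (fun x : R => φ t x ≤ c))
        (t := univ.filter (· ≤ c)) (g := φ t) (fun x hx => by simpa using hx)] at h2
      have h3 : ∑ i ∈ univ.filter (· ≤ c), p t i = F t c := rfl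
      rw [h3, ← h2]
      refine sum_congr rfl fun i hi => sum_congr ?_ fun _ _ => rfl
      ext x
      simp only [mem_filter, mem_univ, true_and, and_iff_right_iff_imp]
      intro hx
      rw [hx]
      exact (mem_filter.1 hi).2
    rw [← sum_fiberwise_of_maps_to (s := (univ : Finset R)) (t := univ) (g := φ t)
      (fun x _ => mem_univ _)]
    refine sum_congr rfl fun c _ => ?_
    rw [hlaw c, sum_mul]
    refine sum_congr rfl fun x hx => ?_
    rw [(mem_filter.1 hx).2]

end Pool.Agent.Lib.MP_17d4d1_pr.C.H40
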